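import Mathlib
import Pool.Agent.Y272.LC.Stm2
import Pool.Agent.H712R2.MultibrotConnected

set_option autoImplicit false

/-!
# Project LC, job LOC (helper901): a connected piece of the Multibrot set
-/

open Complex Filter Topology Metric Set MeasureTheory

namespace Pool.Agent.Y901.LC

open Pool.Agent.H712R2 Pool.Agent.H713R2 Pool.Agent.H713R2.AR Pool.Agent.W677.Mar Pool.Agent.Y272.TY
open Pool.Agent.Y272.LC

/-- A piece of a connected closed set which is cut off by at most one point is connected. -/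
theorem conn_of_bdry {K O : Set ℂ} (hK : IsClosed K) (hKc : IsPreconnected K) (hO : IsOpen O)
    (hS : (K ∩ (closure O \ O)).Subsingleton) : IsPreconnected (K ∩ closure O) := by
  have hQ : IsClosed (K ∩ closure O) := hK.inter isClosed_closure
  -- the core of the argument
  have key : ∀ t t' : Set ℂ, IsClosed t → IsClosed t' → K ∩ closure O ⊆ t ∪ t' →
      (K ∩ closure O ∩ t).Nonempty → (K ∩ closure O ∩ t').Nonempty →
      K ∩ closure O ∩ t' ⊆ O → (K ∩ closure O ∩ (t ∩ t')).Nonempty := by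
    intro t t' ht ht' hsub hne hne' hBO
    have h1 := isPreconnected_closed_iff.1 hKc (K ∩ closure O ∩ t') (K \ O ∪ K ∩ closure O ∩ t)
      (hQ.inter ht') ((hK.sdiff hO).union (hQ.inter ht)) (by
        intro x hx
        by_cases hxO : x ∈ O
        · have hxQ : x ∈ K ∩ closure O := ⟨hx, subset_closure hxO⟩
          rcases hsub hxQ with h | h
          · exact Or.inr (Or.inr ⟨hxQ, h⟩)
          · exact Or.inl ⟨hxQ, h⟩
        · exact Or.inr (Or.inl ⟨hx, hxO⟩)) (by
        obtain ⟨x, hx⟩ := hne'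
        exact ⟨x, hx.1.1, hx⟩) (by
        obtain ⟨x, hx⟩ := hne
        exact ⟨x, hx.1.1, Or.inr hx⟩)
    obtain ⟨x, hxK, hxB, hx2⟩ := h1
    rcases hx2 with h | h
    · exact absurd (hBO hxB) h.2
    · exact ⟨x, hxB.1, h.2, hxB.2⟩
  rw [isPreconnected_closed_iff]
  intro t t' ht ht' hsub hne hne'
  by_contra hcon
  rw [not_nonempty_iff_eq_empty] at hcon
  by_cases hB : K ∩ closure O ∩ t' ⊆ O
  · have h1 := key t t' ht ht' hsub hne hne' hB
    rw [hcon] at h1
    exact Set.not_nonempty_empty h1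
  · have hA : K ∩ closure O ∩ t ⊆ O := by
      obtain ⟨y, hy, hyO⟩ := Set.not_subset.1 hB
      intro x hx
      by_contra hxO
      have h1 : x = y := hS ⟨hx.1.1, hx.1.2, hxO⟩ ⟨hy.1.1, hy.1.2, hyO⟩
      have h2 : x ∈ K ∩ closure O ∩ (t ∩ t') := ⟨hx.1, hx.2, h1 ▸ hy.2⟩
      rw [hcon] at h2
      exact h2
    have h1 := key t' t ht' ht (by rw [union_comm]; exact hsub) hne' hne hA
    rw [inter_comm t' t, hcon] at h1
    exact Set.not_nonempty_empty h1

theorem differentiable_P (d k : ℕ) : Differentiable ℂ (P d k) := by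
  induction k with
  | zero => exact differentiable_const _
  | succ k ih =>
    have : P d (k + 1) = fun c => (P d k c) ^ d + c := by
      funext c; exact P_succ d k c
    rw [this]
    exact (ih.pow d).add differentiable_id

/-- The critical orbit has escape rate zero in the connected case. -/
theorem green_P (hG : St_Grn) {d : ℕ} (hd : 2 ≤ d) {c : ℂ} (hc : green d c 0 = 0) (k : ℕ) :
    green d c (P d k c) = 0 := by
  induction k with
  | zero => rw [P_zero]; exact hc
  | succ k ih =>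
    have h1 : P d (k + 1) c = fc d c (P d k c) := by
      rw [P_succ]; rfl
    rw [h1, (hG d hd).2.1, ih, mul_zero]

theorem zt_re (s t : ℝ) : (zt s t).re = s := by
  unfold zt
  simp

theorem continuous_zt (s : ℝ) : Continuous (fun t : ℝ => zt s t) := by
  unfold zt
  fun_prop

/-- The first of two parameters where the critical value lies on the curve is the only one. -/
theorem unique_aux {c0 : ℂ} {r κ M e : ℝ} {E W : ℂ → ℂ} {x : ℂ} (hr : 0 < r) (hκ : 0 < κ)
    (hM : 0 < M) (hE : DifferentiableOn ℂ E (ball c0 (4 * r))) (hEb : ∀ c ∈ ball c0 (4 * r), ‖E c‖ ≤ 2 * e)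
    (hW : ∀ c ∈ ball c0 (4 * r), ∀ c' ∈ ball c0 (4 * r), κ * M * ‖c - c'‖ ≤ ‖W c - W c'‖)
    (h2e : 2 * e < κ * M * r) {c c' : ℂ} (hc : c ∈ closedBall c0 (2 * r))
    (hc' : c' ∈ closedBall c0 (2 * r)) (h : E c = x - W c) (h' : E c' = x - W c') : c = c' := by
  by_contra hne
  have hpos : 0 < ‖c - c'‖ := norm_pos_iff.2 (sub_ne_zero.2 hne)
  have hsub : closedBall c0 (2 * r) ⊆ ball c0 (4 * r) := closedBall_subset_ball (by linarith)
  have h1 : ‖E c - E c'‖ ≤ 2 * e / r * ‖c - c'‖ := by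
    refine Convex.norm_image_sub_le_of_norm_deriv_le (𝕜 := ℂ) (s := closedBall c0 (2 * r))
      (fun z hz => (hE z (hsub hz)).differentiableAt (isOpen_ball.mem_nhds (hsub hz))) ?_
      (convex_closedBall _ _) hc' hc
    intro z hz
    have hzr : closedBall z r ⊆ ball c0 (4 * r) := by
      intro y hy
      rw [mem_closedBall] at hy hz
      rw [mem_ball]
      calc dist y c0 ≤ dist y z + dist z c0 := dist_triangle _ _ _
        _ < 4 * r := by linarith
    refine Complex.norm_deriv_le_of_forall_mem_sphere_norm_le hr ?_ ?_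
    · refine DifferentiableOn.diffContOnCl ?_
      rw [closure_ball z hr.ne']
      exact hE.mono hzr
    · intro y hy
      exact hEb y (hzr (sphere_subset_closedBall hy))
  have h3 : E c - E c' = -(W c - W c') := by rw [h, h']; ring
  rw [h3, norm_neg] at h1
  have h4 := (hW c (hsub hc) c' (hsub hc')).trans h1
  have h5 : κ * M ≤ 2 * e / r := le_of_mul_le_mul_right h4 hpos
  rw [le_div_iff₀ hr] at h5
  linarith

/-- A connected piece of the Multibrot set. -/
theorem t (hG : St_Grn) (hF : St_Far) (hH : St_Hom) : St_Loc := by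
  intro d Φ hd hΦ c0 w ε l a b η δ₂ κ K ρ M e T0 T1 n W hε hg0 hl hab hba R0 R1 hT hgl hη hinc
    hδ₂ hκ hκK hρ hM hρM he hW hWb hPW hT0 hWw h1 h2
  obtain ⟨hGc, hGf, hGm, -⟩ := hG d hd
  have hK : 0 < K := lt_of_lt_of_le hκ hκK
  have hρM0 : 0 < ρ / M := by positivity
  have hBε : ball c0 (ρ / M) ⊆ ball c0 ε := ball_subset_ball hρM
  have hc0B : c0 ∈ ball c0 (ρ / M) := mem_ball_self hρM0
  obtain ⟨p, hp⟩ : ∃ p : ℂ → ℂ, p = P d (n + 1) := ⟨_, rfl⟩
  have hpc : Continuous p := by rw [hp]; exact continuous_P d (n + 1)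
  have hpd : Differentiable ℂ p := by rw [hp]; exact differentiable_P d (n + 1)
  rw [← hp] at hPW
  -- continuity of the cap
  have hcap : ContinuousOn (fun q : ℂ × ℝ => Φ q.1 (zt l q.2)) (ball c0 ε ×ˢ univ) := by
    have h3 : ContinuousOn (fun q : ℂ × ℝ => (q.1, zt l q.2)) (ball c0 ε ×ˢ univ) := by
      refine Continuous.continuousOn ?_
      exact continuous_fst.prodMk ((continuous_zt l).comp continuous_snd)
    refine hΦ.cont.comp h3 ?_
    intro q hq
    show green d q.1 0 < (zt l q.2).re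
    rw [zt_re]
    exact hgl q.1 hq.1
  have hη0 : 0 ≤ η := (norm_nonneg _).trans ((hη c0 (mem_ball_self hε)).1 0 ⟨le_rfl, hl.le⟩).1
  -- the good set of parameters
  obtain ⟨V, hV⟩ : ∃ V : Set ℂ, V = {c | c ∈ ball c0 (ρ / M) ∧
    (∀ s ∈ Icc 0 l, T0 c s ≠ p c) ∧ (∀ s ∈ Icc 0 l, T1 c s ≠ p c) ∧
    ∀ t ∈ Icc a b, Φ c (zt l t) ≠ p c} := ⟨_, rfl⟩
  have hVopen : IsOpen V := by
    rw [isOpen_iff_mem_nhds]
    intro c hc
    rw [hV] at hc ⊢
    obtain ⟨hcB, hc1, hc2, hc3⟩ := hc
    have hcε := hBε hcB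
    have hev : ∀ᶠ c' in 𝓝 c, c' ∈ ball c0 (ρ / M) := isOpen_ball.mem_nhds hcB
    have hgen : ∀ (X : ℂ → ℝ → ℂ) (x y : ℝ), ContinuousOn (fun q : ℂ × ℝ => X q.1 q.2)
        (ball c0 ε ×ˢ Icc x y) → (∀ s ∈ Icc x y, X c s ≠ p c) →
        ∀ᶠ c' in 𝓝 c, ∀ s ∈ Icc x y, X c' s ≠ p c' := by
      intro X x y hX hXp
      have h3 := isCompact_Icc.eventually_forall_of_forall_eventually (x₀ := c)
        (K := Icc x y) (P := fun c' s => s ∈ Icc x y → X c' s ≠ p c') (by
          intro s hs
          have h4 : ContinuousWithinAt (fun q : ℂ × ℝ => X q.1 q.2 - p q.1)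
              (ball c0 ε ×ˢ Icc x y) (c, s) :=
            (hX (c, s) ⟨hcε, hs⟩).sub (hpc.comp continuous_fst).continuousWithinAt
          have h5 := h4.eventually_ne (sub_ne_zero.2 (hXp s hs))
          rw [eventually_nhdsWithin_iff] at h5
          have h6 : ∀ᶠ q : ℂ × ℝ in 𝓝 (c, s), q.1 ∈ ball c0 ε :=
            continuous_fst.continuousAt.eventually (isOpen_ball.mem_nhds hcε)
          filter_upwards [h5, h6] with q h7 h8 h9
          exact sub_ne_zero.1 (h7 ⟨h8, h9⟩))
      filter_upwards [h3] with c' h4 s hs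
      exact h4 s hs hs
    have e1 := hgen T0 0 l (R0.cont.mono (prod_mono le_rfl Icc_subset_Ici_self)) hc1
    have e2 := hgen T1 0 l (R1.cont.mono (prod_mono le_rfl Icc_subset_Ici_self)) hc2
    have e3 := hgen (fun c t => Φ c (zt l t)) a b (hcap.mono (prod_mono le_rfl (subset_univ _))) hc3
    filter_upwards [hev, e1, e2, e3] with c' f0 f1 f2 f3
    exact ⟨f0, f1, f2, f3⟩
  -- parameters whose critical value is near `w` are good
  have hnear : ∀ c ∈ ball c0 (ρ / M), ‖p c - w‖ < δ₂ → c ∈ V := by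
    intro c hc hcw
    obtain ⟨-, h4, h5⟩ := hinc c (hBε hc) (p c) (by rw [mem_ball, dist_eq_norm]; exact hcw)
    rw [hV]
    exact ⟨hc, fun s hs => (h4 s hs).1, fun s hs => (h4 s hs).2, h5⟩
  have hpc0 : ‖p c0 - w‖ < δ₂ := by
    have h3 := norm_sub_le_norm_sub_add_norm_sub (p c0) (W c0) w
    have h4 := hPW c0 hc0B
    linarith
  have hc0V : c0 ∈ V := hnear c0 hc0B hpc0
  obtain ⟨O, hO⟩ : ∃ O : Set ℂ, O = connectedComponentIn V c0 := ⟨_, rfl⟩
  have hOopen : IsOpen O := by rw [hO]; exact hVopen.connectedComponentIn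
  have hOV : O ⊆ V := by rw [hO]; exact connectedComponentIn_subset V c0
  have hc0O : c0 ∈ O := by rw [hO]; exact mem_connectedComponentIn hc0V
  have hOc : IsConnected O := ⟨⟨c0, hc0O⟩, by rw [hO]; exact isPreconnected_connectedComponentIn⟩
  have hVB : V ⊆ ball c0 (ρ / M) := by
    intro c hc
    rw [hV] at hc
    exact hc.1
  -- (1) a ball in `O`
  have hsmall : closedBall c0 (δ₂ / (4 * K * M)) ⊆ O := by
    rw [hO]
    refine (convex_closedBall c0 _).isPreconnected.subset_connectedComponentIn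
      (mem_closedBall_self (by positivity)) ?_
    intro c hc
    rw [mem_closedBall, dist_eq_norm] at hc
    have hlt : δ₂ / (4 * K * M) < ρ / M := by
      rw [div_lt_div_iff₀ (by positivity) hM]
      have h3 : δ₂ < κ * ρ / 4 := by linarith
      have h4 : κ * ρ ≤ K * ρ := by gcongr
      have h5 : δ₂ < 4 * K * ρ := by nlinarith [mul_pos hK hρ]
      calc δ₂ * M < 4 * K * ρ * M := by gcongr
        _ = ρ * (4 * K * M) := by ring
    have hcB : c ∈ ball c0 (ρ / M) := by
      rw [mem_ball, dist_eq_norm]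
      linarith
    refine hnear c hcB ?_
    have h3 := (hWb c hcB c0 hc0B).2
    have h4 : K * M * ‖c - c0‖ ≤ δ₂ / 4 := by
      calc K * M * ‖c - c0‖ ≤ K * M * (δ₂ / (4 * K * M)) := by gcongr
        _ = δ₂ / 4 := by field_simp
    have h5 := hPW c hcB
    have h6 : ‖p c - w‖ ≤ ‖p c - W c‖ + ‖W c - W c0‖ + ‖W c0 - w‖ := by
      have e1 := norm_sub_le_norm_sub_add_norm_sub (p c) (W c) w
      have e2 := norm_sub_le_norm_sub_add_norm_sub (W c) (W c0) w
      linarith
    linarith
  -- (2) `O` is small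
  have hbig : O ⊆ ball c0 (ρ / (2 * M)) := by
    intro c1 hc1
    by_contra hfar
    rw [mem_ball, dist_eq_norm, not_lt] at hfar
    obtain ⟨c2, hc2O, hc2⟩ : ∃ c2 ∈ O, ‖c2 - c0‖ = ρ / (2 * M) := by
      have h3 := hOc.isPreconnected.intermediate_value hc0O hc1
        (f := fun c => ‖c - c0‖) (by fun_prop)
      have h4 : ρ / (2 * M) ∈ Icc ‖c0 - c0‖ ‖c1 - c0‖ := by
        refine ⟨?_, hfar⟩
        rw [sub_self, norm_zero]
        positivity
      obtain ⟨c2, h5, h6⟩ := h3 h4
      exact ⟨c2, h5, h6⟩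
    have hc2B : c2 ∈ ball c0 (ρ / M) := hVB (hOV hc2O)
    have h3 := (hWb c2 hc2B c0 hc0B).1
    rw [hc2] at h3
    have h4 : κ * M * (ρ / (2 * M)) = κ * ρ / 2 := by field_simp
    rw [h4] at h3
    have h5 := hPW c2 hc2B
    have h6 : ‖W c2 - W c0‖ ≤ ‖p c2 - W c2‖ + ‖p c2 - w‖ + ‖W c0 - w‖ := by
      have e1 := norm_sub_le_norm_sub_add_norm_sub (W c2) (p c2) (W c0)
      have e2 := norm_sub_le_norm_sub_add_norm_sub (p c2) w (W c0)
      rw [norm_sub_rev (W c2) (p c2)] at e1
      rw [norm_sub_rev w (W c0)] at e2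
      linarith
    have h7 : η < ‖p c2 - w‖ := by linarith
    -- a logarithm at `c2`
    have hc2ε := hBε hc2B
    have hlog2 : HasLog (T0 c2) (T1 c2) (fun t => Φ c2 (zt l t)) l a b (p c2) := by
      refine hF (T0 c2) (T1 c2) (fun t => Φ c2 (zt l t)) l a b η (p c2) w hl.le hab.le ?_ ?_ ?_
        (hT c2 hc2ε) (R0.eq c2 hc2ε l (hgl c2 hc2ε)) (R1.eq c2 hc2ε l (hgl c2 hc2ε))
        (fun s hs => ((hη c2 hc2ε).1 s hs).1) (fun s hs => ((hη c2 hc2ε).1 s hs).2)
        (hη c2 hc2ε).2 h7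
      · exact R0.cont.comp (f := fun s : ℝ => (c2, s)) (by fun_prop)
          (fun s hs => ⟨hc2ε, hs.1⟩)
      · exact R1.cont.comp (f := fun s : ℝ => (c2, s)) (by fun_prop)
          (fun s hs => ⟨hc2ε, hs.1⟩)
      · exact hcap.comp (f := fun s : ℝ => (c2, s)) (by fun_prop)
          (fun s _ => ⟨hc2ε, mem_univ _⟩)
    -- a path
    have hOpath : IsPathConnected O := hOopen.isConnected_iff_isPathConnected.1 hOc
    have hjoin : JoinedIn O c2 c0 := hOpath.joinedIn c2 hc2O c0 hc0O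
    obtain ⟨γ, hγ⟩ := hjoin
    obtain ⟨g, hg⟩ : ∃ g : ℝ → ℂ, g = fun τ => γ (projIcc 0 1 zero_le_one τ) := ⟨_, rfl⟩
    have hgc : Continuous g := by
      rw [hg]
      exact γ.continuous.comp continuous_projIcc
    have hgO : ∀ τ, g τ ∈ O := fun τ => by rw [hg]; exact hγ _
    have hg00 : g 0 = c2 := by
      rw [hg]
      simp only
      rw [projIcc_left]
      exact γ.source
    have hg11 : g 1 = c0 := by
      rw [hg]
      simp only
      rw [projIcc_right]
      exact γ.target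
    have hgB : ∀ τ, g τ ∈ ball c0 (ρ / M) := fun τ => hVB (hOV (hgO τ))
    have hgε : ∀ τ, g τ ∈ ball c0 ε := fun τ => hBε (hgB τ)
    have hlog0 := hH (fun τ s => T0 (g τ) s) (fun τ s => T1 (g τ) s)
      (fun τ t => Φ (g τ) (zt l t)) (fun τ => p (g τ)) l a b hl.le hab.le
      (R0.cont.comp (f := fun q : ℝ × ℝ => (g q.1, q.2)) (by fun_prop)
        (fun q hq => ⟨hgε q.1, hq.2.1⟩))
      (R1.cont.comp (f := fun q : ℝ × ℝ => (g q.1, q.2)) (by fun_prop)
        (fun q hq => ⟨hgε q.1, hq.2.1⟩))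
      (hcap.comp (f := fun q : ℝ × ℝ => (g q.1, q.2)) (by fun_prop)
        (fun q hq => ⟨hgε q.1, mem_univ _⟩))
      ((hpc.comp hgc).continuousOn)
      (fun τ _ => ⟨hT _ (hgε τ), R0.eq _ (hgε τ) l (hgl _ (hgε τ)),
        R1.eq _ (hgε τ) l (hgl _ (hgε τ))⟩)
      (fun τ _ s hs => by
        have h8 := hOV (hgO τ)
        rw [hV] at h8
        exact ⟨h8.2.1 s hs, h8.2.2.1 s hs⟩)
      (fun τ _ s hs => by
        have h8 := hOV (hgO τ)
        rw [hV] at h8
        exact h8.2.2.2 s hs)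
      (by
        rw [hg00]
        exact hlog2)
    rw [hg11] at hlog0
    exact (hinc c0 (mem_ball_self hε) (p c0) (by rw [mem_ball, dist_eq_norm]; exact hpc0)).1 hlog0
  have hclO : closure O ⊆ closedBall c0 (ρ / (2 * M)) :=
    closure_minimal (hbig.trans ball_subset_closedBall) isClosed_closedBall
  have h2M : ρ / (2 * M) < ρ / M := by
    rw [div_lt_div_iff₀ (by positivity) hM]
    nlinarith [mul_pos hρ hM]
  have hclB : closure O ⊆ ball c0 (ρ / M) := hclO.trans (closedBall_subset_ball h2M)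
  -- (3), (4) the boundary points
  have hbd : ∀ c ∈ N62a1eb23.multibrotSet d ∩ (closure O \ O), p c = T0 c 0 := by
    rintro c ⟨hcK, hcO, hcO'⟩
    have hcB := hclB hcO
    have hcε := hBε hcB
    have hgc : green d c 0 = 0 := (hGm c).1 hcK
    have hgp : green d c (p c) = 0 := by rw [hp]; exact green_P hG hd hgc (n + 1)
    have hcV : c ∉ V := by
      intro hcV
      apply hcO'
      have h3 : IsOpen (connectedComponentIn V c) := hVopen.connectedComponentIn
      obtain ⟨y, hy1, hy2⟩ := mem_closure_iff.1 hcO _ h3 (mem_connectedComponentIn hcV)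
      rw [hO] at hy2 ⊢
      rw [connectedComponentIn_eq hy2, ← connectedComponentIn_eq hy1]
      exact mem_connectedComponentIn hcV
    by_contra hne
    apply hcV
    rw [hV]
    refine ⟨hcB, ?_, ?_, ?_⟩
    · intro s hs h3
      have h4 := R0.grn c hcε s hs.1
      rw [h3, hgp] at h4
      rw [← h4] at h3
      exact hne h3.symm
    · intro s hs h3
      have h4 := R1.grn c hcε s hs.1
      rw [h3, hgp] at h4
      rw [← h4, ← hT c hcε] at h3
      exact hne h3.symm
    · intro t ht h3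
      have h4 := hΦ.grn c (zt l t) (by rw [zt_re]; exact hgl c hcε)
      rw [h3, hgp, zt_re] at h4
      exact hl.ne h4
  have hsub : (N62a1eb23.multibrotSet d ∩ (closure O \ O)).Subsingleton := by
    intro c hc c' hc'
    have hr : 4 * (ρ / (4 * M)) = ρ / M := by field_simp
    have hr2 : 2 * (ρ / (4 * M)) = ρ / (2 * M) := by field_simp; norm_num
    refine unique_aux (c0 := c0) (r := ρ / (4 * M)) (κ := κ) (M := M) (e := e)
      (E := fun c => p c - W c - (T0 c 0 - T0 c0 0)) (W := W) (x := T0 c0 0) (by positivity) hκ hM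
      ?_ ?_ ?_ ?_ ?_ ?_ ?_ ?_
    · rw [hr]
      exact (hpd.differentiableOn.sub hW).sub ((R0.hol.mono hBε).sub (differentiableOn_const _))
    · rw [hr]
      intro z hz
      have e1 := hPW z hz
      have e2 := hT0 z hz
      have e3 := norm_sub_le (p z - W z) (T0 z 0 - T0 c0 0)
      linarith
    · rw [hr]
      exact fun z hz z' hz' => (hWb z hz z' hz').1
    · have : κ * M * (ρ / (4 * M)) = κ * ρ / 4 := by field_simp
      rw [this]
      linarith
    · rw [hr2]
      exact hclO hc.2.1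
    · rw [hr2]
      exact hclO hc'.2.1
    · rw [hbd c hc]
      ring
    · rw [hbd c' hc']
      ring
  have hc0K : c0 ∈ N62a1eb23.multibrotSet d := (hGm c0).2 hg0
  refine ⟨N62a1eb23.multibrotSet d ∩ closure O, ⟨⟨c0, hc0K, subset_closure hc0O⟩, ?_⟩,
    inter_subset_left, fun x hx => ⟨hx.1, subset_closure (hsmall hx.2)⟩, fun x hx => hclO hx.2⟩
  exact conn_of_bdry (isCompact_multibrot hd).isClosed (isConnected_multibrot hd).isPreconnected
    hOopen hsub

end Pool.Agent.Y901.LC
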